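import Mathlib
import Pool.Agent.H205R3.GrowA
import Pool.Agent.H205R3.GrowB
import Pool.Agent.H205R3.GrowI

/-!
Free squares `B * B` that do not attain their minimal growth rate: this happens whenever a proper
quotient of `B` is a limit of markings of `B`.
-/

set_option autoImplicit false

namespace Pool.Agent.Results.MP_f4e6b0_al.FreeSquareCriterion

open Pool.Agent.H205R3.Grow Filter

/-- Let `θ₀` be a marking of `B` (a surjection from a free group of finite rank), let `K` be a
nontrivial normal subgroup of `B`, and suppose that there are markings `θ k` of `B` in which every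
relation of the marked group `B / K` holds for all large `k`.  Then the free product `B * B` has
growth rates, but no minimal one. -/
theorem result (n : ℕ) (B : Type*) [Group B] (θ₀ : FreeGroup (Fin n) →* B)
    (h₀ : Function.Surjective θ₀) (K : Subgroup B) [K.Normal] (hK : K ≠ ⊥)
    (θ : ℕ → FreeGroup (Fin n) →* B) (hθ : ∀ k, Function.Surjective (θ k))
    (hlim : ∀ u : FreeGroup (Fin n), θ₀ u ∈ K → ∀ᶠ k in atTop, θ k u = 1) :
    (growthRates (Dbl B)).Nonempty ∧ ¬ ∃ r, IsLeast (growthRates (Dbl B)) r := by
  classical
  constructor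
  · let S : Set (Dbl B) := (sq θ₀) '' (Set.range FreeGroup.of)
    have hS : S.Finite := (Set.finite_range _).image _
    have hgen : Subgroup.closure S = ⊤ := by
      rw [show S = (sq θ₀) '' (Set.range FreeGroup.of) from rfl, ← MonoidHom.map_closure,
        FreeGroup.closure_range_of, ← MonoidHom.range_eq_map, MonoidHom.range_eq_top]
      exact sq_surj h₀
    exact ⟨gr S hS, S, hS, hgen, isGrowthRate_gr hS⟩
  · rintro ⟨r, ⟨S, hS, hgen, hr⟩, hleast⟩
    obtain ⟨S₁, hS₁, hgen₁, hlt⟩ := exists_smaller' h₀ K hK θ hθ hlim hS hgen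
    have h1 : r = gr S hS := growthRate_unique hS hr
    have h2 : r ≤ gr S₁ hS₁ := hleast ⟨S₁, hS₁, hgen₁, isGrowthRate_gr hS₁⟩
    linarith

end Pool.Agent.Results.MP_f4e6b0_al.FreeSquareCriterion
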